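import Pool.Agent.H78.HC.Defs

set_option autoImplicit false

/-!
PROJECT HB (MP_bf82d2_ag): if all the functions in `RH H x y` are constant then `H = ⟨x⟩` (the proof of helper83 for one
branch point, with a general subgroup `H`).
-/

namespace Pool.Agent.H78.HC

open Finset Module

variable {G : Type} [Group G] [Fintype G]

/-- the space `RH H x y` has dimension at least `n / |x| - n / |H| + 1` -/
theorem card_of_const (H : Subgroup G) (x y : G) (hxH : x ∈ H)
    (h1 : ∀ f ∈ RH H x y, ∀ g, f g = f 1) : H = Subgroup.zpowers x := by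
  classical
  obtain ⟨X, hX⟩ : ∃ X, X = Subgroup.zpowers x := ⟨_, rfl⟩
  have hxX : x ∈ X := by rw [hX]; exact Subgroup.mem_zpowers x
  have hXH : X ≤ H := by rw [hX]; exact (Subgroup.zpowers_le).2 hxH
  let Psi : (G ⧸ X → ℂ) →ₗ[ℂ] (G → ℂ) :=
    { toFun := fun F g => ∑ h : H, F (((g * h : G) : G ⧸ X)) - ∑ h : H, F (((g * h * y : G) : G ⧸ X))
      map_add' := by
        intro F K
        funext g
        simp only [Pi.add_apply, sum_add_distrib]
        ring
      map_smul' := by
        intro c F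
        funext g
        simp only [Pi.smul_apply, smul_eq_mul, ← mul_sum, RingHom.id_apply]
        ring }
  have hPsi : ∀ F g, Psi F g =
      ∑ h : H, F (((g * h : G) : G ⧸ X)) - ∑ h : H, F (((g * h * y : G) : G ⧸ X)) := fun _ _ => rfl
  have hinv : ∀ F g (k : H), Psi F (g * k) = Psi F g := by
    intro F g k
    rw [hPsi, hPsi]
    congr 1
    · refine Fintype.sum_equiv (Equiv.mulLeft k) _ _ fun h => ?_
      rw [Equiv.coe_mulLeft, Subgroup.coe_mul, mul_assoc]
    · refine Fintype.sum_equiv (Equiv.mulLeft k) _ _ fun h => ?_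
      rw [Equiv.coe_mulLeft, Subgroup.coe_mul]
      simp only [mul_assoc]
  have hsum : ∀ F, ∑ g, Psi F g = 0 := by
    intro F
    simp only [hPsi, sum_sub_distrib]
    rw [sum_comm, sum_comm (s := univ) (t := univ) (f := fun g (h : H) => F (((g * h * y : G) : G ⧸ X))),
      ← sum_sub_distrib]
    refine sum_eq_zero fun h _ => ?_
    rw [sub_eq_zero]
    rw [Fintype.sum_equiv (Equiv.mulRight (h : G)) (fun g => F (((g * h : G) : G ⧸ X)))
      (fun g => F ((g : G) : G ⧸ X)) fun g => rfl,
      Fintype.sum_equiv (Equiv.mulRight ((h : G) * y)) (fun g => F (((g * h * y : G) : G ⧸ X)))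
      (fun g => F ((g : G) : G ⧸ X)) fun g => by rw [Equiv.coe_mulRight, mul_assoc]]
  let L : (G ⧸ X → ℂ) →ₗ[ℂ] (G ⧸ H → ℂ) := (LinearMap.funLeft ℂ ℂ (fun q : G ⧸ H => q.out)) ∘ₗ Psi
  have hL : ∀ F q, L F q = Psi F q.out := fun _ _ => rfl
  let S : (G ⧸ H → ℂ) →ₗ[ℂ] ℂ := ∑ q, LinearMap.proj q
  have hS : ∀ K, S K = ∑ q, K q := by
    intro K
    show (∑ q, LinearMap.proj q : (G ⧸ H → ℂ) →ₗ[ℂ] ℂ) K = _
    rw [LinearMap.sum_apply]
    rfl
  have hSL : LinearMap.range L ≤ LinearMap.ker S := by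
    rintro _ ⟨F, rfl⟩
    rw [LinearMap.mem_ker, hS]
    have h3 : ∑ g, Psi F g = (Fintype.card H : ℂ) * ∑ q : G ⧸ H, L F q := by
      let e : (G ⧸ H) × H → G := fun q => q.1.out * q.2
      have he : Function.Bijective e := by
        constructor
        · rintro ⟨q, h⟩ ⟨q', h'⟩ hqq
          have h4 : q.out * (h : G) = q'.out * (h' : G) := hqq
          have h5 : q = q' := by
            have h6 := congrArg (fun g : G => ((g : G) : G ⧸ H)) h4
            change ((q.out * (h : G) : G) : G ⧸ H) = ((q'.out * (h' : G) : G) : G ⧸ H) at h6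
            rw [QuotientGroup.mk_mul_of_mem _ h.2, QuotientGroup.mk_mul_of_mem _ h'.2,
              QuotientGroup.out_eq', QuotientGroup.out_eq'] at h6
            exact h6
          subst h5
          rw [mul_right_inj] at h4
          rw [Subtype.ext h4]
        · intro g
          obtain ⟨h, hh⟩ := QuotientGroup.mk_out_eq_mul H g
          refine ⟨(((g : G) : G ⧸ H), h⁻¹), ?_⟩
          show ((g : G) : G ⧸ H).out * ((h⁻¹ : H) : G) = g
          rw [hh, Subgroup.coe_inv, mul_inv_cancel_right]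
      rw [← Fintype.sum_bijective e he (fun q => Psi F (e q)) (fun g => Psi F g) fun q => rfl,
        Fintype.sum_prod_type, mul_sum]
      refine sum_congr rfl fun q _ => ?_
      rw [hL]
      have h4 : ∀ h : H, Psi F (e (q, h)) = Psi F q.out := fun h => hinv F q.out h
      rw [sum_congr rfl fun h _ => h4 h, sum_const, card_univ, nsmul_eq_mul]
    rw [hsum] at h3
    have h5 : (Fintype.card H : ℂ) ≠ 0 := by
      exact_mod_cast Fintype.card_ne_zero
    exact (mul_eq_zero.1 h3.symm).resolve_left h5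
  have hkS : finrank ℂ (LinearMap.ker S) + 1 = Nat.card (G ⧸ H) := by
    have h3 := LinearMap.finrank_range_add_finrank_ker S
    have h4 : LinearMap.range S = ⊤ := by
      rw [LinearMap.range_eq_top]
      intro c
      refine ⟨Pi.single ((1 : G) : G ⧸ H) c, ?_⟩
      rw [hS, Finset.sum_pi_single']
      simp
    rw [h4, finrank_top, finrank_self, finrank_fintype_fun_eq_card] at h3
    rw [Nat.card_eq_fintype_card]
    omega
  have hout : ∀ F, L F = 0 → ∀ g, Psi F g = 0 := by
    intro F hF g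
    obtain ⟨h, hh⟩ := QuotientGroup.mk_out_eq_mul H g
    have h3 := congrFun hF ((g : G) : G ⧸ H)
    rw [hL, hh, hinv] at h3
    exact h3
  have hkL : finrank ℂ (LinearMap.ker L) ≤ 1 := by
    have hone : (fun _ => 1 : G ⧸ X → ℂ) ∈ LinearMap.ker L := by
      rw [LinearMap.mem_ker]
      funext q
      rw [hL, hPsi, sub_self]
      rfl
    refine finrank_le_one ⟨_, hone⟩ fun F => ⟨(F : G ⧸ X → ℂ) ((1 : G) : G ⧸ X), ?_⟩
    apply Subtype.ext
    funext q
    obtain ⟨g, rfl⟩ := QuotientGroup.mk_surjective q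
    show (F : G ⧸ X → ℂ) ((1 : G) : G ⧸ X) * 1 = (F : G ⧸ X → ℂ) ((g : G) : G ⧸ X)
    rw [mul_one]
    have h3 : (fun g : G => (F : G ⧸ X → ℂ) ((g : G) : G ⧸ X)) ∈ RH H x y := by
      refine ⟨fun g => ?_, fun g => ?_⟩
      · show (F : G ⧸ X → ℂ) ((g * x : G) : G ⧸ X) = (F : G ⧸ X → ℂ) ((g : G) : G ⧸ X)
        rw [QuotientGroup.mk_mul_of_mem g hxX]
      · have h4 := hout F F.2 g
        rw [hPsi, sub_eq_zero] at h4
        exact h4
    exact (h1 _ h3 g).symm
  have h5 := LinearMap.finrank_range_add_finrank_ker L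
  rw [finrank_fintype_fun_eq_card, ← Nat.card_eq_fintype_card] at h5
  have h6 := Submodule.finrank_mono hSL
  have h7 : Nat.card (G ⧸ X) ≤ Nat.card (G ⧸ H) := by omega
  have h8 : Nat.card H ≤ Nat.card X := by
    have h9 := Subgroup.card_eq_card_quotient_mul_card_subgroup X
    have h10 := Subgroup.card_eq_card_quotient_mul_card_subgroup H
    have h11 : 0 < Nat.card (G ⧸ X) := Nat.card_pos
    have h12 : Nat.card (G ⧸ X) * Nat.card H ≤ Nat.card (G ⧸ X) * Nat.card X := by
      rw [← h9, h10]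
      exact Nat.mul_le_mul_right _ h7
    exact Nat.le_of_mul_le_mul_left h12 h11
  have h9 : X = H := Subgroup.eq_of_le_of_card_ge hXH h8
  rw [← hX, h9]


end Pool.Agent.H78.HC
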