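import Pool.Agent.H83.UNE.Iso

set_option autoImplicit false

/-!
PROJECT HB (MP_bf82d2_ag): Galois covers of elliptic curves with `N` branch points: systems `x`, `y`, `l = [s_1, …, s_N]`
with `[x, y] s_1 ⋯ s_N = 1`, their translates, and what a Shimura variety implies.
-/

namespace Pool.Agent.H78.HC

open Finset Module
open Pool.Agent.H52.WP (wallE ShimE)

section
variable {G : Type} [Group G]

/-- the translates of the system `x₀`, `y₀`, `l₀` under the mapping class group -/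
inductive Tr (x₀ y₀ : G) (l₀ : List G) : G → G → List G → Prop
  | refl : Tr x₀ y₀ l₀ x₀ y₀ l₀
  | twist {x y : G} {l : List G} : Tr x₀ y₀ l₀ x y l → Tr x₀ y₀ l₀ (x * y) y l
  | rot {x y : G} {l : List G} : Tr x₀ y₀ l₀ x y l → Tr x₀ y₀ l₀ (x * y * x⁻¹) x⁻¹ l
  | rot' {x y : G} {l : List G} : Tr x₀ y₀ l₀ x y l → Tr x₀ y₀ l₀ y⁻¹ (y * x * y⁻¹) l
  | push {x y s : G} {l : List G} : Tr x₀ y₀ l₀ x y (l ++ [s]) → Tr x₀ y₀ l₀ (s * x) y ((y * s * y⁻¹) :: l)
  | braid {x y a b : G} {l m : List G} : Tr x₀ y₀ l₀ x y (l ++ a :: b :: m) →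
      Tr x₀ y₀ l₀ x y (l ++ (a * b * a⁻¹) :: a :: m)

/-- the group of the covers of the pinched curve -/
def HH (x y : G) (l : List G) : Subgroup G := Subgroup.closure ({x, y * x * y⁻¹} ∪ {s | s ∈ l})

variable [Fintype G]

open Classical in
/-- functions on `G / ⟨x⟩` with zero boundary at the cosets of `H` -/
noncomputable def RH (H : Subgroup G) (x y : G) : Submodule ℂ (G → ℂ) where
  carrier := {f | (∀ g, f (g * x) = f g) ∧ ∀ g, ∑ h : H, f (g * h) = ∑ h : H, f (g * h * y)}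
  add_mem' := by
    intro f k hf hk
    refine ⟨fun g => ?_, fun g => ?_⟩
    · rw [Pi.add_apply, Pi.add_apply, hf.1 g, hk.1 g]
    · simp only [Pi.add_apply]
      rw [sum_add_distrib, sum_add_distrib, hf.2 g, hk.2 g]
  zero_mem' := by
    refine ⟨fun g => rfl, fun g => ?_⟩
    simp only [Pi.zero_apply]
  smul_mem' := by
    intro c f hf
    refine ⟨fun g => ?_, fun g => ?_⟩
    · rw [Pi.smul_apply, Pi.smul_apply, hf.1 g]
    · simp only [Pi.smul_apply]
      rw [← smul_sum, ← smul_sum, hf.2 g]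

/-- What a Shimura variety implies for the family of the covers of elliptic curves given by `x₀`, `y₀`, `l₀`. -/
structure ShimH (x₀ y₀ : G) (l₀ : List G) : Prop where
  /-- the handle is pinched off -/
  hand : ∀ x y l, Tr x₀ y₀ l₀ x y l → x * y ≠ y * x → ∀ (K : Type) [Group K] [Fintype K] (i : K →* G),
    Function.Injective i → ∀ a b : K, i a = x → i b = y → Subgroup.closure {a, b} = ⊤ → ShimE a b
  /-- the loop `x` is pinched -/
  wall : ∀ x y l, Tr x₀ y₀ l₀ x y l → x ≠ 1 → ∀ f ∈ RH (HH x y l) x y, ∀ g,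
    wallE x y f g = (orderOf x * orderOf y : ℂ) * f g
  /-- Moonen's list for the covers of the line with monodromies `x`, `y * x⁻¹ * y⁻¹`, `l` (they are cyclic: by `wall` these
  elements are powers of `x`) -/
  moon : ∀ x y l, Tr x₀ y₀ l₀ x y l → x ≠ 1 → l.length ≤ 4 ∧ (x * y = y * x →
    (l.length = 4 → ∀ s ∈ l, s = x ∧ s = x⁻¹) ∧
    (l.length = 3 → orderOf x = 3 ∧ ∀ s ∈ l, ∀ t ∈ l, s = t) ∧
    (l.length = 2 → ∀ s ∈ l, (orderOf x = 2 ∧ orderOf s = 2) ∨ (orderOf x = 3 ∧ orderOf s = 3) ∨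
      (orderOf x = 4 ∧ orderOf s = 2)))
  /-- three branch points, the quaternion group -/
  quat : ∀ x y z, Tr x₀ y₀ l₀ x y [z, z, z] → ¬ (x ^ 2 = z ∧ y ^ 2 = z ∧ x * y * x⁻¹ * y⁻¹ = z)

end

section
variable {G : Type} [Group G] {x₀ y₀ x y : G} {l₀ l : List G}

theorem Tr.len (h : Tr x₀ y₀ l₀ x y l) : l.length = l₀.length := by
  induction h with
  | refl => rfl
  | twist _ ih => exact ih
  | rot _ ih => exact ih
  | rot' _ ih => exact ih
  | push _ ih => simpa using ih
  | braid _ ih => simpa using ih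

theorem Tr.rel (h0 : x₀ * y₀ * x₀⁻¹ * y₀⁻¹ * l₀.prod = 1) (h : Tr x₀ y₀ l₀ x y l) :
    x * y * x⁻¹ * y⁻¹ * l.prod = 1 := by
  induction h with
  | refl => exact h0
  | @twist x y l _ ih =>
    have h1 : x * y * y * (x * y)⁻¹ * y⁻¹ = x * y * x⁻¹ * y⁻¹ := by group
    rw [h1]
    exact ih
  | @rot x y l _ ih =>
    have h1 : x * y * x⁻¹ * x⁻¹ * (x * y * x⁻¹)⁻¹ * x⁻¹⁻¹ = x * y * x⁻¹ * y⁻¹ := by group
    rw [h1]
    exact ih
  | @rot' x y l _ ih =>
    have h1 : y⁻¹ * (y * x * y⁻¹) * y⁻¹⁻¹ * (y * x * y⁻¹)⁻¹ = x * y * x⁻¹ * y⁻¹ := by group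
    rw [h1]
    exact ih
  | @push x y s l _ ih =>
    rw [List.prod_append, List.prod_singleton] at ih
    rw [List.prod_cons]
    have h1 : s * x * y * (s * x)⁻¹ * y⁻¹ * (y * s * y⁻¹ * l.prod) =
        s * (x * y * x⁻¹ * y⁻¹ * (l.prod * s)) * s⁻¹ := by group
    rw [h1, ih]
    group
  | @braid x y a b l m _ ih =>
    rw [List.prod_append, List.prod_cons, List.prod_cons] at ih ⊢
    have h1 : a * b * a⁻¹ * (a * m.prod) = a * (b * m.prod) := by group
    rw [h1]
    exact ih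

theorem Tr.ne (h0 : ∀ s ∈ l₀, s ≠ 1) (h : Tr x₀ y₀ l₀ x y l) : ∀ s ∈ l, s ≠ 1 := by
  induction h with
  | refl => exact h0
  | twist _ ih => exact ih
  | rot _ ih => exact ih
  | rot' _ ih => exact ih
  | @push x y s l _ ih =>
    intro t ht
    rcases List.mem_cons.1 ht with h1 | h1
    · rw [h1]
      intro h2
      exact ih s (by simp) (conj_eq_one_iff.1 h2)
    · exact ih t (List.mem_append_left _ h1)
  | @braid x y a b l m _ ih =>
    intro t ht
    rcases List.mem_append.1 ht with h1 | h1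
    · exact ih t (List.mem_append_left _ h1)
    · rcases List.mem_cons.1 h1 with h2 | h2
      · rw [h2]
        intro h3
        exact ih b (by simp) (conj_eq_one_iff.1 h3)
      · rcases List.mem_cons.1 h2 with h3 | h3
        · rw [h3]
          exact ih a (by simp)
        · exact ih t (by simp [h3])

theorem Tr.gen (h0 : ∀ K : Subgroup G, x₀ ∈ K → y₀ ∈ K → (∀ s ∈ l₀, s ∈ K) → K = ⊤) (h : Tr x₀ y₀ l₀ x y l) :
    ∀ K : Subgroup G, x ∈ K → y ∈ K → (∀ s ∈ l, s ∈ K) → K = ⊤ := by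
  induction h with
  | refl => exact h0
  | @twist x y l _ ih =>
    intro K h1 h2 h3
    refine ih K ?_ h2 h3
    have h4 := K.mul_mem h1 (K.inv_mem h2)
    rwa [mul_inv_cancel_right] at h4
  | @rot x y l _ ih =>
    intro K h1 h2 h3
    have h4 : x ∈ K := by
      have h5 := K.inv_mem h2
      rwa [inv_inv] at h5
    refine ih K h4 ?_ h3
    have h5 := K.mul_mem (K.mul_mem h2 h1) h4
    have h6 : x⁻¹ * (x * y * x⁻¹) * x = y := by group
    rwa [h6] at h5
  | @rot' x y l _ ih =>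
    intro K h1 h2 h3
    have h4 : y ∈ K := by
      have h5 := K.inv_mem h1
      rwa [inv_inv] at h5
    refine ih K ?_ h4 h3
    have h5 := K.mul_mem (K.mul_mem h1 h2) h4
    have h6 : y⁻¹ * (y * x * y⁻¹) * y = x := by group
    rwa [h6] at h5
  | @push x y s l _ ih =>
    intro K h1 h2 h3
    have h4 : s ∈ K := by
      have h5 := K.mul_mem (K.mul_mem (K.inv_mem h2) (h3 _ (List.mem_cons_self ..))) h2
      have h6 : y⁻¹ * (y * s * y⁻¹) * y = s := by group
      rwa [h6] at h5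
    refine ih K ?_ h2 ?_
    · have h5 := K.mul_mem (K.inv_mem h4) h1
      rwa [inv_mul_cancel_left] at h5
    · intro t ht
      rcases List.mem_append.1 ht with h5 | h5
      · exact h3 t (List.mem_cons_of_mem _ h5)
      · rw [List.mem_singleton.1 h5]
        exact h4
  | @braid x y a b l m _ ih =>
    intro K h1 h2 h3
    have ha : a ∈ K := h3 a (by simp)
    have hb : b ∈ K := by
      have h5 := K.mul_mem (K.mul_mem (K.inv_mem ha) (h3 (a * b * a⁻¹) (by simp))) ha
      have h6 : a⁻¹ * (a * b * a⁻¹) * a = b := by group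
      rwa [h6] at h5
    refine ih K h1 h2 ?_
    intro t ht
    rcases List.mem_append.1 ht with h5 | h5
    · exact h3 t (List.mem_append_left _ h5)
    · rcases List.mem_cons.1 h5 with h6 | h6
      · rw [h6]; exact ha
      · rcases List.mem_cons.1 h6 with h7 | h7
        · rw [h7]; exact hb
        · exact h3 t (by simp [h7])

/-- an element of the list can be moved to the end -/
theorem Tr.moveEnd {s : G} : ∀ (m l : List G), Tr x₀ y₀ l₀ x y (l ++ s :: m) →
    Tr x₀ y₀ l₀ x y ((l ++ m.map (fun t => s * t * s⁻¹)) ++ [s]) := by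
  intro m
  induction m with
  | nil =>
    intro l h
    simpa using h
  | cons b m ih =>
    intro l h
    have h1 := Tr.braid h
    have h2 : Tr x₀ y₀ l₀ x y ((l ++ [s * b * s⁻¹]) ++ s :: m) := by simpa using h1
    have h3 := ih _ h2
    simpa using h3

/-- the same `x`, and `y` multiplied by a conjugate of `s` -/
theorem Tr.slide {s : G} {l : List G} (h : Tr x₀ y₀ l₀ x y (l ++ [s])) :
    Tr x₀ y₀ l₀ x (x⁻¹ * s * x * y) ((x⁻¹ * s * x) :: l) := by
  have h1 := Tr.rot' (Tr.push (Tr.rot h))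
  have h2 : x⁻¹ * (s * (x * y * x⁻¹)) * x = x⁻¹ * s * x * y := by group
  rw [inv_inv, h2] at h1
  exact h1

end

end Pool.Agent.H78.HC
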