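import Pool.Agent.H78.HC.Wall

set_option autoImplicit false

/-!
PROJECT HB (MP_bf82d2_ag): the classification.
-/

namespace Pool.Agent.H78.HC

open Subgroup (zpowers)

section
variable {G : Type} [Group G]

theorem rel_inv {x y : G} (h1 : x ^ 2 = y ^ 2) (h2 : x ^ 2 = x * y * x⁻¹ * y⁻¹) :
    y ^ 4 = 1 ∧ x * y * x⁻¹ = y⁻¹ := by
  have h3 : x * y * x⁻¹ = y ^ 3 := by
    have h4 : x * y * x⁻¹ = y ^ 2 * y := by
      rw [← h1, h2]
      group
    rw [h4]
    group
  have h5 : x * y ^ 2 * x⁻¹ = y ^ 6 := by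
    have h6 : x * y ^ 2 * x⁻¹ = (x * y * x⁻¹) ^ 2 := by
      rw [pow_two, pow_two]
      group
    rw [h6, h3, ← pow_mul]
  have h7 : x * y ^ 2 * x⁻¹ = y ^ 2 := by
    rw [← h1]
    group
  have h8 : y ^ 4 = 1 := by
    have h9 : y ^ 6 = y ^ 2 := by rw [← h5, h7]
    have h10 : y ^ 4 * y ^ 2 = 1 * y ^ 2 := by
      rw [← pow_add, one_mul]
      exact h9
    exact mul_right_cancel h10
  refine ⟨h8, ?_⟩
  rw [h3, eq_inv_iff_mul_eq_one, ← pow_succ]
  exact h8

theorem mem_of_card [Finite G] {x s : G} (h : s ∈ zpowers x) (h' : orderOf s = orderOf x) : x ∈ zpowers s := by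
  have h1 : zpowers s = zpowers x := by
    apply Subgroup.eq_of_le_of_card_ge (Subgroup.zpowers_le.2 h)
    rw [Nat.card_zpowers, Nat.card_zpowers, h']
  rw [h1]
  exact Subgroup.mem_zpowers x

theorem sq_of_mem {x s : G} (hx : orderOf x = 4) (hs : orderOf s = 2) (h : s ∈ zpowers x) : x ^ 2 = s := by
  obtain ⟨i, hi⟩ := Subgroup.mem_zpowers_iff.1 h
  have h1 : x ^ (i % 4) = s := by
    have h2 := zpow_mod_orderOf x i
    rw [hx] at h2
    rw [← hi]
    exact_mod_cast h2
  have h3 : s ^ 2 = 1 := by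
    rw [← hs]
    exact pow_orderOf_eq_one s
  have h4 : x ^ (2 * i) = 1 := by
    have h5 : x ^ (2 * i) = s ^ 2 := by
      rw [← hi, mul_comm, zpow_mul]
      norm_cast
    rw [h5, h3]
  have h6 : (4 : ℤ) ∣ 2 * i := by
    have h7 := orderOf_dvd_iff_zpow_eq_one.2 h4
    rw [hx] at h7
    exact_mod_cast h7
  have h8 : i % 4 = 0 ∨ i % 4 = 2 := by omega
  rcases h8 with h8 | h8
  · exfalso
    rw [h8, zpow_zero] at h1
    rw [← h1, orderOf_one] at hs
    omega
  · rw [h8] at h1
    exact_mod_cast h1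

theorem top_of {S : Set G} {c : G} (hgen : Subgroup.closure S = ⊤) (h : ∀ s ∈ S, s ∈ zpowers c) :
    zpowers c = ⊤ := by
  rw [eq_top_iff, ← hgen, Subgroup.closure_le]
  exact h

theorem card_of_top {c : G} (h : zpowers c = ⊤) : Nat.card G = orderOf c ∧ IsCyclic G := by
  constructor
  · rw [← Nat.card_zpowers, h, Subgroup.card_top]
  · refine ⟨c, fun g => ?_⟩
    have h1 : g ∈ zpowers c := by
      rw [h]
      exact Subgroup.mem_top g
    exact h1

end

variable {G : Type} [Group G] [Fintype G] {x₀ y₀ x y : G} {l₀ l : List G}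

/-- a system with the conditions of a Shimura variety -/
structure Ok (x₀ y₀ : G) (l₀ : List G) : Prop where
  rel : x₀ * y₀ * x₀⁻¹ * y₀⁻¹ * l₀.prod = 1
  ne : ∀ s ∈ l₀, s ≠ 1
  gen : ∀ K : Subgroup G, x₀ ∈ K → y₀ ∈ K → (∀ s ∈ l₀, s ∈ K) → K = ⊤
  shim : ShimH x₀ y₀ l₀

/-- a handle which does not commute generates a quaternion group -/
theorem Ok.hand (hP : Ok x₀ y₀ l₀) (h : Tr x₀ y₀ l₀ x y l) (hn : x * y ≠ y * x) :
    x ^ 2 = y ^ 2 ∧ x ^ 2 = x * y * x⁻¹ * y⁻¹ := by
  classical
  let K := Subgroup.closure ({x, y} : Set G)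
  have hx : x ∈ K := Subgroup.subset_closure (by simp)
  have hy : y ∈ K := Subgroup.subset_closure (by simp)
  haveI : Fintype K := Fintype.ofFinite K
  have hg : Subgroup.closure {(⟨x, hx⟩ : K), ⟨y, hy⟩} = ⊤ := by
    have h1 := Subgroup.closure_closure_coe_preimage (k := ({x, y} : Set G))
    have h2 : ((Subtype.val : K → G) ⁻¹' ({x, y} : Set G)) = {(⟨x, hx⟩ : K), ⟨y, hy⟩} := by
      ext z
      simp only [Set.mem_preimage, Set.mem_insert_iff, Set.mem_singleton_iff, Subtype.ext_iff]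
    rw [← h2]
    exact h1
  have h1 := hP.shim.hand x y l h hn K K.subtype K.subtype_injective ⟨x, hx⟩ ⟨y, hy⟩ rfl rfl hg
  obtain ⟨-, h3, h4⟩ := Pool.Agent.H83.UNE.shimE_q8 h1
  have h5 := congrArg (Subtype.val : K → G) h3
  have h6 := congrArg (Subtype.val : K → G) h4
  exact ⟨h5, h6⟩

theorem Ok.mem (hP : Ok x₀ y₀ l₀) (h : Tr x₀ y₀ l₀ x y l) (hx : x ≠ 1) {s : G} (hs : s ∈ l) : s ∈ zpowers x :=
  hP.shim.mem hP.gen h hx hs

theorem Ok.ne' (hP : Ok x₀ y₀ l₀) (h : Tr x₀ y₀ l₀ x y l) : ∀ s ∈ l, s ≠ 1 := h.ne hP.ne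

/-- with at least two branch points all handles commute -/
theorem Ok.comm (hP : Ok x₀ y₀ l₀) (h : Tr x₀ y₀ l₀ x y l) (hn : 2 ≤ l.length) : x * y = y * x := by
  by_contra hxy
  obtain ⟨k1, k2⟩ := hP.hand h hxy
  obtain ⟨k3, k4⟩ := rel_inv k1 k2
  have hx1 : x ≠ 1 := by
    rintro rfl
    exact hxy (by rw [one_mul, mul_one])
  have hy1 : y⁻¹ ≠ 1 := by
    intro h1
    rw [inv_eq_one] at h1
    subst h1
    exact hxy (by rw [one_mul, mul_one])
  have hr := Tr.rot h
  rw [k4] at hr
  obtain ⟨z, hz⟩ : ∃ z, z = x ^ 2 := ⟨_, rfl⟩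
  have hzz : z * z = 1 := by rw [hz, k1, ← pow_add]; exact k3
  have hz1 : z ≠ 1 := by
    intro h1
    apply hxy
    rw [hz, k2, mul_inv_eq_one, mul_inv_eq_iff_eq_mul] at h1
    exact h1
  have hzy : z * y = y * z := by rw [hz, k1]; group
  have hall : ∀ s ∈ l, s = z := by
    intro s hs
    have h1 := hP.mem h hx1 hs
    have h2 := hP.mem hr hy1 hs
    have h3 : s * y = y * s := by
      obtain ⟨j, hj⟩ := Subgroup.mem_zpowers_iff.1 h2
      rw [← hj]
      group
    obtain ⟨i, hi⟩ := Subgroup.mem_zpowers_iff.1 h1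
    have hzp : ∀ j : ℤ, z ^ j = 1 ∨ z ^ j = z := by
      intro j
      rcases Int.even_or_odd' j with ⟨k, rfl | rfl⟩
      · left
        rw [zpow_mul, zpow_two, hzz, one_zpow]
      · right
        rw [zpow_add, zpow_mul, zpow_two, hzz, one_zpow, one_mul, zpow_one]
    rcases Int.even_or_odd' i with ⟨j, rfl | rfl⟩
    · have h4 : s = z ^ j := by
        rw [← hi, zpow_mul, hz]
        norm_cast
      rcases hzp j with h5 | h5
      · exact absurd (h4.trans h5) (hP.ne' h s hs)
      · exact h4.trans h5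
    · exfalso
      have h4 : s = z ^ j * x := by
        rw [← hi, zpow_add, zpow_mul, zpow_one, hz]
        norm_cast
      have h5 : z ^ j * y = y * z ^ j := (show Commute z y from hzy).zpow_left j
      apply hxy
      have h6 : z ^ j * (x * y) = z ^ j * (y * x) := by
        calc z ^ j * (x * y) = s * y := by rw [h4, mul_assoc]
          _ = y * s := h3
          _ = y * z ^ j * x := by rw [h4, mul_assoc]
          _ = z ^ j * (y * x) := by rw [← h5, mul_assoc]
      exact mul_left_cancel h6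
  have hlen := (hP.shim.moon x y l h hx1).1
  have hrel := h.rel hP.rel
  rw [← k2, ← hz] at hrel
  match l, h, hn, hlen, hall, hrel with
  | [], _, hn, _, _, _ => simp at hn
  | [a], _, hn, _, _, _ => simp at hn
  | [a, b], _, _, _, hall, hrel =>
    have ha : a = z := hall a (by simp)
    have hb : b = z := hall b (by simp)
    subst ha hb
    simp only [List.prod_cons, List.prod_nil, mul_one] at hrel
    rw [hzz, mul_one] at hrel
    exact hz1 hrel
  | [a, b, c], h, _, _, hall, _ =>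
    have ha : a = z := hall a (by simp)
    have hb : b = z := hall b (by simp)
    have hc : c = z := hall c (by simp)
    rw [ha, hb, hc] at h
    exact hP.shim.quat x y z h ⟨hz.symm, by rw [← k1, ← hz], by rw [← k2, ← hz]⟩
  | [a, b, c, d], _, _, _, hall, hrel =>
    have ha : a = z := hall a (by simp)
    have hb : b = z := hall b (by simp)
    have hc : c = z := hall c (by simp)
    have hd : d = z := hall d (by simp)
    rw [ha, hb, hc, hd] at hrel
    simp only [List.prod_cons, List.prod_nil, mul_one] at hrel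
    rw [hzz, mul_one, hzz, mul_one] at hrel
    exact hz1 hrel
  | a :: b :: c :: d :: e :: m, _, _, hlen, _, _ =>
    simp only [List.length_cons] at hlen
    omega

/-- the rotated system -/
theorem Ok.rot (hP : Ok x₀ y₀ l₀) (h : Tr x₀ y₀ l₀ x y l) (hn : 2 ≤ l.length) : Tr x₀ y₀ l₀ y x⁻¹ l := by
  have h1 := Tr.rot h
  have h2 : x * y * x⁻¹ = y := by rw [hP.comm h hn]; group
  rwa [h2] at h1

/-- the last branch point goes around the handle, if `x = 1` -/
theorem Ok.push (hP : Ok x₀ y₀ l₀) {s : G} {l : List G} (h : Tr x₀ y₀ l₀ 1 y (l ++ [s])) (hn : 1 ≤ l.length) :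
    Tr x₀ y₀ l₀ s y (s :: l) := by
  have h1 := Tr.push h
  have h2 : y * s * y⁻¹ = s := by
    by_cases hy : y = 1
    · rw [hy]
      group
    · have h3 := hP.mem (hP.rot h (by simp; omega)) hy (s := s) (by simp)
      obtain ⟨j, hj⟩ := Subgroup.mem_zpowers_iff.1 h3
      rw [← hj]
      group
  rwa [h2, mul_one] at h1

/-- two branch points -/
theorem Ok.two_x (hP : Ok x₀ y₀ l₀) {s t : G} (h : Tr x₀ y₀ l₀ x y [s, t]) :
    x ∈ zpowers s ∨ (orderOf s = 2 ∧ x ^ 2 = s) := by
  by_cases hx : x = 1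
  · left
    rw [hx]
    exact Subgroup.one_mem _
  have h1 := hP.mem h hx (s := s) (by simp)
  rcases ((hP.shim.moon x y _ h hx).2 (hP.comm h (by simp))).2.2 (by simp) s (by simp) with h2 | h2 | h2
  · left
    exact mem_of_card h1 (by rw [h2.1, h2.2])
  · left
    exact mem_of_card h1 (by rw [h2.1, h2.2])
  · right
    exact ⟨h2.2, sq_of_mem h2.1 h2.2 h1⟩

theorem Ok.two_order (hP : Ok x₀ y₀ l₀) {s t : G} (h : Tr x₀ y₀ l₀ x y [s, t]) : orderOf s = 2 ∨ orderOf s = 3 := by
  by_cases hx : x = 1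
  · subst hx
    have h1 := hP.push (l := [s]) (s := t) h (by simp)
    have ht : t ≠ 1 := hP.ne' h t (by simp)
    rcases ((hP.shim.moon t y _ h1 ht).2 (hP.comm h1 (by simp))).2.2 (by simp) s (by simp) with h2 | h2 | h2
    · exact Or.inl h2.2
    · exact Or.inr h2.2
    · exact Or.inl h2.2
  · rcases ((hP.shim.moon x y _ h hx).2 (hP.comm h (by simp))).2.2 (by simp) s (by simp) with h2 | h2 | h2
    · exact Or.inl h2.2
    · exact Or.inr h2.2
    · exact Or.inl h2.2

theorem Ok.two (hP : Ok x₀ y₀ l₀) {s t : G} (h : Tr x₀ y₀ l₀ x y [s, t]) :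
    (orderOf s = 2 ∨ orderOf s = 3) ∧ ((x ∈ zpowers s ∧ y ∈ zpowers s) ∨
      (orderOf s = 2 ∧ ((x ^ 2 = s ∧ y ∈ zpowers x) ∨ (y ^ 2 = s ∧ x ∈ zpowers y)))) := by
  have hxy := hP.comm h (by simp)
  refine ⟨hP.two_order h, ?_⟩
  have hx := hP.two_x h
  have hy := hP.two_x (hP.rot h (by simp))
  have hxy' := hP.two_x (Tr.twist h)
  have hsq : ∀ {u : G}, u ^ 2 = s → s ∈ zpowers u := by
    intro u hu
    rw [← hu]
    exact Subgroup.pow_mem _ (Subgroup.mem_zpowers u) 2
  rcases hx with hx | ⟨h1, hx⟩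
  · rcases hy with hy | ⟨h2, hy⟩
    · left
      exact ⟨hx, hy⟩
    · right
      refine ⟨h2, Or.inr ⟨hy, ?_⟩⟩
      exact (Subgroup.zpowers_le.2 (hsq hy)) hx
  · right
    refine ⟨h1, Or.inl ⟨hx, ?_⟩⟩
    rcases hy with hy | ⟨h2, hy⟩
    · exact (Subgroup.zpowers_le.2 (hsq hx)) hy
    · have h3 : s ^ 2 = 1 := by
        rw [← h1]
        exact pow_orderOf_eq_one s
      have h4 : (x * y) ^ 2 = 1 := by
        have h5 : (x * y) ^ 2 = x ^ 2 * y ^ 2 := (show Commute x y from hxy).mul_pow 2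
        rw [h5, hx, hy, ← pow_two, h3]
      rcases hxy' with h5 | ⟨_, h5⟩
      · have h6 : x * y ∈ zpowers x := (Subgroup.zpowers_le.2 (hsq hx)) h5
        have h7 := (zpowers x).mul_mem ((zpowers x).inv_mem (Subgroup.mem_zpowers x)) h6
        rwa [inv_mul_cancel_left] at h7
      · exfalso
        rw [h4] at h5
        exact hP.ne' h s (by simp) h5.symm

/-- three branch points -/
theorem Ok.three_all (hP : Ok x₀ y₀ l₀) {a b c : G} (h : Tr x₀ y₀ l₀ x y [a, b, c]) :
    a = c ∧ b = c ∧ orderOf c = 3 := by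
  by_cases hx : x = 1
  · subst hx
    have h1 := hP.push (l := [a, b]) (s := c) h (by simp)
    have hc : c ≠ 1 := hP.ne' h c (by simp)
    obtain ⟨h2, h3⟩ := ((hP.shim.moon c y _ h1 hc).2 (hP.comm h1 (by simp))).2.1 (by simp)
    exact ⟨h3 a (by simp) c (by simp), h3 b (by simp) c (by simp), h2⟩
  · obtain ⟨h2, h3⟩ := ((hP.shim.moon x y _ h hx).2 (hP.comm h (by simp))).2.1 (by simp)
    refine ⟨h3 a (by simp) c (by simp), h3 b (by simp) c (by simp), ?_⟩
    have h4 := hP.mem h hx (s := c) (by simp)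
    have h5 : orderOf c ∣ 3 := by
      rw [← h2]
      exact orderOf_dvd_of_mem_zpowers h4
    rcases (Nat.dvd_prime Nat.prime_three).1 h5 with h6 | h6
    · exact absurd (orderOf_eq_one_iff.1 h6) (hP.ne' h c (by simp))
    · exact h6

theorem Ok.three_x (hP : Ok x₀ y₀ l₀) {a b c : G} (h : Tr x₀ y₀ l₀ x y [a, b, c]) : x ∈ zpowers c := by
  by_cases hx : x = 1
  · rw [hx]
    exact Subgroup.one_mem _
  · obtain ⟨h2, -⟩ := ((hP.shim.moon x y _ h hx).2 (hP.comm h (by simp))).2.1 (by simp)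
    exact mem_of_card (hP.mem h hx (s := c) (by simp)) (by rw [h2, (hP.three_all h).2.2])

/-- four branch points -/
theorem Ok.four_all (hP : Ok x₀ y₀ l₀) {a b c d : G} (h : Tr x₀ y₀ l₀ x y [a, b, c, d]) :
    a = d ∧ b = d ∧ c = d ∧ d = d⁻¹ := by
  by_cases hx : x = 1
  · subst hx
    have h1 := hP.push (l := [a, b, c]) (s := d) h (by simp)
    have hd : d ≠ 1 := hP.ne' h d (by simp)
    have h3 := ((hP.shim.moon d y _ h1 hd).2 (hP.comm h1 (by simp))).1 (by simp)
    exact ⟨(h3 a (by simp)).1, (h3 b (by simp)).1, (h3 c (by simp)).1, (h3 d (by simp)).2⟩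
  · have h3 := ((hP.shim.moon x y _ h hx).2 (hP.comm h (by simp))).1 (by simp)
    have hd := (h3 d (by simp)).1
    refine ⟨(h3 a (by simp)).1.trans hd.symm, (h3 b (by simp)).1.trans hd.symm, (h3 c (by simp)).1.trans hd.symm, ?_⟩
    have h4 := (h3 d (by simp)).2
    rw [← hd] at h4
    exact h4

theorem Ok.four_x (hP : Ok x₀ y₀ l₀) {a b c d : G} (h : Tr x₀ y₀ l₀ x y [a, b, c, d]) : x ∈ zpowers d := by
  by_cases hx : x = 1
  · rw [hx]
    exact Subgroup.one_mem _
  · have h3 := ((hP.shim.moon x y _ h hx).2 (hP.comm h (by simp))).1 (by simp)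
    rw [← (h3 d (by simp)).1]
    exact Subgroup.mem_zpowers d

/-- at most four branch points -/
theorem Ok.len (hP : Ok x₀ y₀ l₀) (h : Tr x₀ y₀ l₀ x y l) : l.length ≤ 4 := by
  by_cases hx : x = 1
  · by_contra hn
    rcases List.eq_nil_or_concat l with h1 | ⟨l', s, h1⟩
    · rw [h1] at hn
      simp at hn
    · rw [List.concat_eq_append] at h1
      subst h1 hx
      have hlen : 4 ≤ l'.length := by
        simp at hn
        omega
      have h2 := hP.push h (by omega)
      have h3 := (hP.shim.moon s y _ h2 (hP.ne' h s (by simp))).1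
      simp at h3
      omega
  · exact (hP.shim.moon x y l h hx).1

/-- one branch point -/
theorem Ok.one (hP : Ok x₀ y₀ l₀) {s : G} (h : Tr x₀ y₀ l₀ x y [s]) : Nonempty (G ≃* QuaternionGroup 2) := by
  have hs : s ≠ 1 := hP.ne' h s (by simp)
  have h1 : x * y * x⁻¹ * y⁻¹ * s = 1 := by
    have h2 := h.rel hP.rel
    simpa using h2
  have hxy : x * y ≠ y * x := by
    intro h2
    have h3 : x * y * x⁻¹ * y⁻¹ = 1 := by rw [h2]; group
    rw [h3, one_mul] at h1
    exact hs h1
  have hg : Subgroup.closure ({x, y} : Set G) = ⊤ := by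
    have hx : x ∈ Subgroup.closure ({x, y} : Set G) := Subgroup.subset_closure (by simp)
    have hy : y ∈ Subgroup.closure ({x, y} : Set G) := Subgroup.subset_closure (by simp)
    refine h.gen hP.gen _ hx hy ?_
    intro z hz
    rw [List.mem_singleton.1 hz]
    have h4 : s = (x * y * x⁻¹ * y⁻¹)⁻¹ := (eq_inv_of_mul_eq_one_right h1)
    rw [h4]
    exact Subgroup.inv_mem _ (Subgroup.mul_mem _ (Subgroup.mul_mem _ (Subgroup.mul_mem _ hx hy)
      (Subgroup.inv_mem _ hx)) (Subgroup.inv_mem _ hy))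
  exact Pool.Agent.H83.UNE.shimE_iso
    (hP.shim.hand x y _ h hxy G (MonoidHom.id G) (fun _ _ h => h) x y rfl rfl hg)

/-- The classification of the systems with the properties of Shimura varieties. -/
theorem main (hP : Ok x y l) (hl : l ≠ []) :
    (Nonempty (G ≃* QuaternionGroup 2) ∧ l.length = 1) ∨
    (Nat.card G = 2 ∧ (l.length = 2 ∨ l.length = 4)) ∨
    (Nat.card G = 3 ∧ (l.length = 2 ∨ l.length = 3)) ∨
    (IsCyclic G ∧ Nat.card G = 4 ∧ l.length = 2 ∧ ∀ s ∈ l, s ^ 2 = 1) := by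
  have h : Tr x y l x y l := Tr.refl
  have hlen := hP.len h
  match l, hP, h, hl, hlen with
  | [], _, _, hl, _ => exact absurd rfl hl
  | [s], hP, h, _, _ =>
    left
    exact ⟨hP.one h, rfl⟩
  | [s, t], hP, h, _, _ =>
    obtain ⟨h1, h2⟩ := hP.two h
    have hst : s * t = 1 := by
      have h3 := hP.rel
      have h4 : x * y * x⁻¹ * y⁻¹ = 1 := by rw [hP.comm h (by simp)]; group
      rw [h4, one_mul] at h3
      simpa using h3
    have ht : t = s⁻¹ := eq_inv_of_mul_eq_one_right hst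
    have hmem : ∀ c : G, x ∈ zpowers c → y ∈ zpowers c → s ∈ zpowers c → zpowers c = ⊤ := by
      intro c k1 k2 k3
      refine hP.gen _ k1 k2 ?_
      intro z hz
      simp only [List.mem_cons, List.not_mem_nil, or_false] at hz
      rcases hz with rfl | rfl
      · exact k3
      · rw [ht]
        exact Subgroup.inv_mem _ k3
    rcases h2 with ⟨h3, h4⟩ | ⟨h3, h4⟩
    · obtain ⟨k1, k2⟩ := card_of_top (hmem s h3 h4 (Subgroup.mem_zpowers s))
      rcases h1 with h1 | h1
      · right; left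
        exact ⟨by rw [k1, h1], Or.inl rfl⟩
      · right; right; left
        exact ⟨by rw [k1, h1], Or.inl rfl⟩
    · have hs2 : s ^ 2 = 1 := by
        rw [← h3]
        exact pow_orderOf_eq_one s
      have hs1 : s ≠ 1 := hP.ne s (by simp)
      have hfour : ∀ u : G, u ^ 2 = s → orderOf u = 4 := by
        intro u hu
        have h5 : orderOf u = 2 ^ (1 + 1) := by
          refine orderOf_eq_prime_pow ?_ ?_
          · rw [pow_one, hu]
            exact hs1
          · rw [show (2 : ℕ) ^ (1 + 1) = 2 * 2 from rfl, pow_mul, hu, hs2]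
        rw [h5]
        norm_num
      right; right; right
      have hl : ∀ r ∈ [s, t], r ^ 2 = 1 := by
        intro r hr
        simp only [List.mem_cons, List.not_mem_nil, or_false] at hr
        rcases hr with rfl | rfl
        · exact hs2
        · rw [ht, inv_pow, hs2, inv_one]
      rcases h4 with ⟨h4, h5⟩ | ⟨h4, h5⟩
      · have h6 : s ∈ zpowers x := by rw [← h4]; exact Subgroup.pow_mem _ (Subgroup.mem_zpowers x) 2
        obtain ⟨k1, k2⟩ := card_of_top (hmem x (Subgroup.mem_zpowers x) h5 h6)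
        exact ⟨k2, by rw [k1, hfour x h4], rfl, hl⟩
      · have h6 : s ∈ zpowers y := by rw [← h4]; exact Subgroup.pow_mem _ (Subgroup.mem_zpowers y) 2
        obtain ⟨k1, k2⟩ := card_of_top (hmem y h5 (Subgroup.mem_zpowers y) h6)
        exact ⟨k2, by rw [k1, hfour y h4], rfl, hl⟩
  | [a, b, c], hP, h, _, _ =>
    obtain ⟨h1, h2, h3⟩ := hP.three_all h
    have h6 : zpowers c = ⊤ := by
      refine hP.gen _ (hP.three_x h) (hP.three_x (hP.rot h (by simp))) ?_
      intro z hz
      simp only [List.mem_cons, List.not_mem_nil, or_false] at hz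
      have h7 : z = c := by
        rcases hz with h7 | h7 | h7
        · rw [h7, h1]
        · rw [h7, h2]
        · exact h7
      rw [h7]
      exact Subgroup.mem_zpowers c
    obtain ⟨k1, k2⟩ := card_of_top h6
    right; right; left
    exact ⟨by rw [k1, h3], Or.inr rfl⟩
  | [a, b, c, d], hP, h, _, _ =>
    obtain ⟨h1, h2, h3, h4⟩ := hP.four_all h
    have hd1 : d ≠ 1 := hP.ne d (by simp)
    have h6 : zpowers d = ⊤ := by
      refine hP.gen _ (hP.four_x h) (hP.four_x (hP.rot h (by simp))) ?_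
      intro z hz
      simp only [List.mem_cons, List.not_mem_nil, or_false] at hz
      have h7 : z = d := by
        rcases hz with h7 | h7 | h7 | h7
        · rw [h7, h1]
        · rw [h7, h2]
        · rw [h7, h3]
        · exact h7
      rw [h7]
      exact Subgroup.mem_zpowers d
    obtain ⟨k1, k2⟩ := card_of_top h6
    have h8 : orderOf d = 2 := orderOf_eq_prime (by rw [pow_two, mul_eq_one_iff_eq_inv]; exact h4) hd1
    right; left
    exact ⟨by rw [k1, h8], Or.inr rfl⟩
  | a :: b :: c :: d :: e :: m, _, _, _, hlen =>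
    simp only [List.length_cons] at hlen
    omega

end Pool.Agent.H78.HC
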