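import Pool.Agent.H78.HC.Defs

set_option autoImplicit false

/-!
PROJECT HB (MP_bf82d2_ag): the functions with `E_x E_y f = |x| |y| f` which are invariant under `x` are invariant under
`y` (the proof of helper52 for one branch point).
-/

namespace Pool.Agent.H78.HC

open Finset Module
open Pool.Agent.H78.WL (sm sm_apply sm_const Adj_sm)
open Pool.Agent.H52.WP (wallE)

variable {G : Type} [Group G] [Fintype G]

theorem inv_y {x y : G} {f : G → ℂ} (hf : ∀ g, f (g * x) = f g)
    (hD : ∀ g, wallE x y f g = (orderOf x * orderOf y : ℂ) * f g) (g : G) : f (g * y) = f g := by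
  classical
  have hinv : ∀ (g : G), ∀ h ∈ Subgroup.zpowers x, f (g * h) = f g := by
    intro g
    have h1 : Subgroup.zpowers x ≤
        { carrier := {g | ∀ y, f (y * g) = f y}
          mul_mem' := by
            intro g k hg hk y
            rw [← mul_assoc, hk, hg]
          one_mem' := by
            intro y
            rw [mul_one]
          inv_mem' := by
            intro g hg y
            have h2 := hg (y * g⁻¹)
            rw [inv_mul_cancel_right] at h2
            exact h2.symm } := by
      rw [Subgroup.zpowers_le]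
      exact hf
    intro h hh
    exact h1 hh g
  have hA : (0 : ℝ) < Nat.card (Subgroup.zpowers x) := by exact_mod_cast Nat.card_pos
  have h1 : ∀ g, wallE x y f g = sm (Subgroup.zpowers x) (sm (Subgroup.zpowers y) f) g := by
    intro g
    rw [sm_apply]
    unfold wallE
    refine sum_congr rfl fun h _ => ?_
    rw [sm_apply]
  have h3 : ∀ g, sm (Subgroup.zpowers x) (fun g => star (f g)) g =
      Nat.card (Subgroup.zpowers x) * star (f g) := by
    intro g
    refine sm_const _ (fun g => star (f g)) (fun z h hh => ?_) g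
    show star (f (z * h)) = star (f z)
    rw [hinv z h hh]
  have h4 : ∑ g, wallE x y f g * star (f g) = Nat.card (Subgroup.zpowers x) *
      ∑ g, sm (Subgroup.zpowers y) f g * star (f g) := by
    rw [sum_congr rfl fun g _ => by rw [h1 g], Adj_sm (Subgroup.zpowers x)
      (sm (Subgroup.zpowers y) f) (fun g => star (f g)),
      sum_congr rfl fun g _ => by rw [h3 g], mul_sum]
    refine sum_congr rfl fun g _ => ?_
    ring
  have h5 : (∑ g, wallE x y f g * star (f g)).re = Nat.card (Subgroup.zpowers x) *
      Nat.card (Subgroup.zpowers y) * ∑ g, ‖f g‖ ^ 2 := by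
    have h6 : ∀ g, wallE x y f g * star (f g) = ((Nat.card (Subgroup.zpowers x) *
        Nat.card (Subgroup.zpowers y) * ‖f g‖ ^ 2 : ℝ) : ℂ) := by
      intro g
      rw [hD g, mul_assoc, Complex.star_def, Complex.mul_conj, Complex.normSq_eq_norm_sq,
        Nat.card_zpowers, Nat.card_zpowers]
      push_cast
      ring
    rw [sum_congr rfl fun g _ => h6 g, ← Complex.ofReal_sum, Complex.ofReal_re, mul_sum]
  have h7 : (∑ g, wallE x y f g * star (f g)).re = Nat.card (Subgroup.zpowers x) *
      (∑ g, sm (Subgroup.zpowers y) f g * star (f g)).re := by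
    rw [h4, ← Complex.ofReal_natCast, Complex.re_ofReal_mul]
  rw [h5, Pool.Agent.H52.WP.sm_form (Subgroup.zpowers y) f, mul_assoc] at h7
  have h8 := mul_left_cancel₀ hA.ne' h7
  have h9 : ∑ x, ∑ h : Subgroup.zpowers y, ‖f (x * h) - f x‖ ^ 2 = 0 := by linarith
  have h10 := (sum_eq_zero_iff_of_nonneg fun x _ => sum_nonneg fun (h : Subgroup.zpowers y) _ =>
    sq_nonneg ‖f (x * h) - f x‖).1 h9 g (mem_univ _)
  have h11 := (sum_eq_zero_iff_of_nonneg fun (h : Subgroup.zpowers y) _ =>
    sq_nonneg ‖f (g * h) - f g‖).1 h10 ⟨y, Subgroup.mem_zpowers y⟩ (mem_univ _)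
  rw [sq_eq_zero_iff, norm_eq_zero] at h11
  exact sub_eq_zero.1 h11

end Pool.Agent.H78.HC
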