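import Pool.Agent.H78.HC.Cnt
import Pool.Agent.H78.HC.Inv

set_option autoImplicit false

/-!
PROJECT HB (MP_bf82d2_ag): if `x` is not `1`, all branch points have monodromy in `⟨x⟩`.
-/

namespace Pool.Agent.H78.HC

open Finset
open Subgroup (zpowers)

variable {G : Type} [Group G] [Fintype G] {x₀ y₀ x y : G} {l₀ l : List G}

theorem RH_mul {H : Subgroup G} {x y t : G} (ht : t ∈ H) {f : G → ℂ} (hf : f ∈ RH H x y) :
    f ∈ RH H x (t * y) := by
  classical
  refine ⟨hf.1, fun g => ?_⟩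
  rw [hf.2 g]
  refine Fintype.sum_equiv (Equiv.mulRight (⟨t, ht⟩ : H)⁻¹) _ _ fun h => ?_
  rw [Equiv.coe_mulRight, Subgroup.coe_mul, Subgroup.coe_inv]
  congr 1
  group

theorem HH_x (x y : G) (l : List G) : x ∈ HH x y l := Subgroup.subset_closure (by simp)

theorem HH_y (x y : G) (l : List G) : y * x * y⁻¹ ∈ HH x y l := Subgroup.subset_closure (by simp)

theorem HH_s (x y : G) {l : List G} {s : G} (hs : s ∈ l) : s ∈ HH x y l :=
  Subgroup.subset_closure (Or.inr hs)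

theorem HH_le {x y : G} {l : List G} {K : Subgroup G} (h1 : x ∈ K) (h2 : y * x * y⁻¹ ∈ K)
    (h3 : ∀ s ∈ l, s ∈ K) : HH x y l ≤ K := by
  unfold HH
  rw [Subgroup.closure_le]
  rintro z (hz | hz)
  · rcases hz with hz | hz
    · rw [hz]; exact h1
    · rw [Set.mem_singleton_iff.1 hz]; exact h2
  · exact h3 z hz

theorem HH_moveEnd (x y s : G) (m l : List G) :
    HH x y ((l ++ m.map (fun t => s * t * s⁻¹)) ++ [s]) = HH x y (l ++ s :: m) := by
  apply le_antisymm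
  · refine HH_le (HH_x _ _ _) (HH_y _ _ _) ?_
    have hs : s ∈ HH x y (l ++ s :: m) := HH_s _ _ (by simp)
    intro t ht
    rcases List.mem_append.1 ht with h1 | h1
    · rcases List.mem_append.1 h1 with h2 | h2
      · exact HH_s _ _ (List.mem_append_left _ h2)
      · obtain ⟨u, hu, rfl⟩ := List.mem_map.1 h2
        exact Subgroup.mul_mem _ (Subgroup.mul_mem _ hs (HH_s _ _ (by simp [hu]))) (Subgroup.inv_mem _ hs)
    · rw [List.mem_singleton.1 h1]
      exact hs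
  · refine HH_le (HH_x _ _ _) (HH_y _ _ _) ?_
    have hs : s ∈ HH x y ((l ++ m.map (fun t => s * t * s⁻¹)) ++ [s]) := HH_s _ _ (by simp)
    intro t ht
    rcases List.mem_append.1 ht with h1 | h1
    · exact HH_s _ _ (List.mem_append_left _ (List.mem_append_left _ h1))
    · rcases List.mem_cons.1 h1 with h2 | h2
      · rw [h2]; exact hs
      · have h3 : s * t * s⁻¹ ∈ HH x y ((l ++ m.map (fun t => s * t * s⁻¹)) ++ [s]) :=
          HH_s _ _ (List.mem_append_left _ (List.mem_append_right _ (List.mem_map.2 ⟨t, h2, rfl⟩)))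
        have h4 := Subgroup.mul_mem _ (Subgroup.mul_mem _ (Subgroup.inv_mem _ hs) h3) hs
        have h5 : s⁻¹ * (s * t * s⁻¹) * s = t := by group
        rwa [h5] at h4

theorem HH_slide (x y s : G) (l : List G) :
    HH x (x⁻¹ * s * x * y) ((x⁻¹ * s * x) :: l) = HH x y (l ++ [s]) := by
  apply le_antisymm
  · have hx := HH_x x y (l ++ [s])
    have hy := HH_y x y (l ++ [s])
    have hs : s ∈ HH x y (l ++ [s]) := HH_s _ _ (by simp)
    have ht : x⁻¹ * s * x ∈ HH x y (l ++ [s]) :=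
      Subgroup.mul_mem _ (Subgroup.mul_mem _ (Subgroup.inv_mem _ hx) hs) hx
    refine HH_le hx ?_ ?_
    · have h1 := Subgroup.mul_mem _ (Subgroup.mul_mem _ ht hy) (Subgroup.inv_mem _ ht)
      have h2 : x⁻¹ * s * x * (y * x * y⁻¹) * (x⁻¹ * s * x)⁻¹ =
          x⁻¹ * s * x * y * x * (x⁻¹ * s * x * y)⁻¹ := by group
      rwa [h2] at h1
    · intro t h1
      rcases List.mem_cons.1 h1 with h2 | h2
      · rw [h2]; exact ht
      · exact HH_s _ _ (List.mem_append_left _ h2)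
  · have hx := HH_x x (x⁻¹ * s * x * y) ((x⁻¹ * s * x) :: l)
    have hy := HH_y x (x⁻¹ * s * x * y) ((x⁻¹ * s * x) :: l)
    have ht : x⁻¹ * s * x ∈ HH x (x⁻¹ * s * x * y) ((x⁻¹ * s * x) :: l) := HH_s _ _ (by simp)
    refine HH_le hx ?_ ?_
    · have h1 := Subgroup.mul_mem _ (Subgroup.mul_mem _ (Subgroup.inv_mem _ ht) hy) ht
      have h2 : (x⁻¹ * s * x)⁻¹ * (x⁻¹ * s * x * y * x * (x⁻¹ * s * x * y)⁻¹) * (x⁻¹ * s * x) =
          y * x * y⁻¹ := by group
      rwa [h2] at h1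
    · intro t h1
      rcases List.mem_append.1 h1 with h2 | h2
      · exact HH_s _ _ (List.mem_cons_of_mem _ h2)
      · rw [List.mem_singleton.1 h2]
        have h3 := Subgroup.mul_mem _ (Subgroup.mul_mem _ hx ht) (Subgroup.inv_mem _ hx)
        have h4 : x * (x⁻¹ * s * x) * x⁻¹ = s := by group
        rwa [h4] at h3

/-- the functions of `RH` are invariant under the elements of the list -/
theorem ShimH.inv_s (hS : ShimH x₀ y₀ l₀) (h : Tr x₀ y₀ l₀ x y l) (hx : x ≠ 1) {f : G → ℂ}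
    (hf : f ∈ RH (HH x y l) x y) {s : G} (hs : s ∈ l) (g : G) : f (g * s) = f g := by
  obtain ⟨l₁, m, rfl⟩ := List.append_of_mem hs
  have h1 := Tr.moveEnd m l₁ h
  have hy : ∀ g, f (g * y) = f g := inv_y hf.1 (hS.wall x y _ h hx f hf)
  have h2 := Tr.slide h1
  have hf1 : f ∈ RH (HH x y ((l₁ ++ m.map (fun t => s * t * s⁻¹)) ++ [s])) x y := by
    rw [HH_moveEnd]
    exact hf
  have ht : x⁻¹ * s * x ∈ HH x y ((l₁ ++ m.map (fun t => s * t * s⁻¹)) ++ [s]) :=
    Subgroup.mul_mem _ (Subgroup.mul_mem _ (Subgroup.inv_mem _ (HH_x _ _ _)) (HH_s _ _ (by simp))) (HH_x _ _ _)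
  have hf2 : f ∈ RH (HH x (x⁻¹ * s * x * y) ((x⁻¹ * s * x) :: (l₁ ++ m.map (fun t => s * t * s⁻¹)))) x
      (x⁻¹ * s * x * y) := by
    rw [HH_slide]
    exact RH_mul ht hf1
  have h3 : ∀ g, f (g * (x⁻¹ * s * x * y)) = f g :=
    inv_y hf2.1 (hS.wall _ _ _ h2 hx f hf2)
  have h4 : ∀ g, f (g * (x⁻¹ * s * x)) = f g := by
    intro g
    rw [← h3 g, ← hy (g * (x⁻¹ * s * x)), mul_assoc]
  have h5 := h4 (g * x)
  have h6 : g * x * (x⁻¹ * s * x) = g * s * x := by group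
  rw [h6, hf.1, hf.1] at h5
  exact h5

/-- the functions of `RH` are constant -/
theorem ShimH.const (hS : ShimH x₀ y₀ l₀) (h0 : ∀ K : Subgroup G, x₀ ∈ K → y₀ ∈ K → (∀ s ∈ l₀, s ∈ K) → K = ⊤)
    (h : Tr x₀ y₀ l₀ x y l) (hx : x ≠ 1) {f : G → ℂ} (hf : f ∈ RH (HH x y l) x y) (g : G) : f g = f 1 := by
  let K : Subgroup G :=
    { carrier := {g | ∀ z, f (z * g) = f z}
      mul_mem' := by
        intro g k hg hk z
        rw [← mul_assoc, hk, hg]
      one_mem' := by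
        intro z
        rw [mul_one]
      inv_mem' := by
        intro g hg z
        have h2 := hg (z * g⁻¹)
        rw [inv_mul_cancel_right] at h2
        exact h2.symm }
  have hK : K = ⊤ := h.gen h0 K hf.1 (inv_y hf.1 (hS.wall x y _ h hx f hf))
    fun s hs g => hS.inv_s h hx hf hs g
  have h1 : g ∈ K := by
    rw [hK]
    exact Subgroup.mem_top g
  have h2 := (show ∀ z, f (z * g) = f z from h1) 1
  rwa [one_mul] at h2

/-- all branch points have monodromy in `⟨x⟩` -/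
theorem ShimH.mem (hS : ShimH x₀ y₀ l₀) (h0 : ∀ K : Subgroup G, x₀ ∈ K → y₀ ∈ K → (∀ s ∈ l₀, s ∈ K) → K = ⊤)
    (h : Tr x₀ y₀ l₀ x y l) (hx : x ≠ 1) {s : G} (hs : s ∈ l) : s ∈ zpowers x := by
  have h1 := card_of_const (HH x y l) x y (HH_x _ _ _)
    fun f hf g => hS.const h0 h hx hf g
  rw [← h1]
  exact HH_s _ _ hs

end Pool.Agent.H78.HC
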